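import Pool.Agent.Helper89.EX.FN
import Pool.Agent.Helper89.EX.DV
import Pool.Agent.Helper66.EX.TW
import Pool.Agent.Helper52.EX.AS

/-!
# MP_5176ab_co: classes of graphs for which the crosscut formula holds
-/

set_option autoImplicit false

namespace Pool.Agent.Results.MP_5176ab_co.Classes

open EX Finset SimpleGraph Filter Topology

open scoped Classical

/-- the condition on the sparse part: the treewidth of `G` is at most `r - 1` and `G` is
`(r - 1)`-colourable; or `G` is bipartite and one side has fewer than `r choose 2` vertices; or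
`G` is bipartite and every vertex of one side has degree at most `d`, where
`(d + 1 - r) d^(r-1) < (d - 1)^r` (for instance `2 ≤ d ≤ r - 1`); or the Turán number `ex(n, G)` is
at most `c n^a` for all `n`, with constants `c` and `a < 2 - 1 / (r - 1)` -/
def Thin {U : Type} [Fintype U] (r : ℕ) (G : SimpleGraph U) : Prop :=
  (TreewidthLE G (r - 1) ∧ G.Colorable (r - 1)) ∨
  (∃ A : Finset U, (∀ u v, G.Adj u v → (u ∈ A ↔ v ∉ A)) ∧ A.card < r.choose 2) ∨
  (∃ (A : Finset U) (d : ℕ), (∀ u v, G.Adj u v → (u ∈ A ↔ v ∉ A)) ∧ 1 ≤ d ∧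
    (∀ u, u ∉ A → (univ.filter (G.Adj u)).card ≤ d) ∧
    (d + 1 - r) * d ^ (r - 1) < (d - 1) ^ r) ∨
  (∃ c a : ℝ, a < 2 - 1 / ((r : ℝ) - 1) ∧
    ∀ n : ℕ, (extremalNumber n G : ℝ) ≤ c * (n : ℝ) ^ a)

theorem small_of_thin {U : Type} [Fintype U] (r : ℕ) (hr : 3 ≤ r) (G : SimpleGraph U)
    (h : Thin r G) :
    Tendsto (fun n : ℕ => (exK n r G : ℝ) / (n : ℝ) ^ (r - 1)) atTop (𝓝 0) := by
  rcases h with ⟨h1, h2⟩ | ⟨A, hA, h1⟩ | ⟨A, d, hA, h1, h2, h3⟩ | ⟨c, a, h1, h2⟩
  · exact exK_small_of_tw r (by omega) G h1 h2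
  · exact exK_small_of_bip r hr G A hA h1
  · exact exK_small_of_deg r (by omega) G A hA d h1 h2 h3
  · exact exK_small_of_exponent r hr G c a h1 h2

theorem result {U : Type} [Fintype U] (r : ℕ) (hr : 3 ≤ r) (G : SimpleGraph U) (hG : G ≠ ⊥)
    (hA : G.Colorable (r - 2) ∨ AvoidsClass r G)
    (hT : ∃ S : Finset U, S.card + 3 ≤ r ∧ Thin (r - S.card) (G.induce {u | u ∉ S})) :
    Tendsto (fun n : ℕ => (exr r n (expansion r G) : ℝ) / (n.choose (r - 1) : ℝ)) atTop
      (𝓝 ((crosscutNumber (expansion r G) : ℝ) - 1)) ∧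
    (2 ≤ crosscutNumber (expansion r G) → CrosscutFormula r G) := by
  have hA' : AvoidsClass r G := hA.elim (avoids_of_colorable r hr G) id
  obtain ⟨S, hS, hT⟩ := hT
  obtain ⟨h1, h2, h3⟩ := sandwich r hr G hG hA'
  have h4 := exK_small_of_delete (r - S.card) S.card (by omega) G S rfl
    (small_of_thin (r - S.card) (by omega) _ hT)
  have h5 : r - S.card + S.card = r := by omega
  rw [h5] at h4
  have h6 := tendsto_of_bounds _ _ _ _ (small_choose _ _ h4) h3
  exact ⟨h6, fun hσ => formula_of_tendsto r G hσ h6⟩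

end Pool.Agent.Results.MP_5176ab_co.Classes
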