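import Pool.Agent.Helper89.EX.OL

/-!
# MP_5176ab_co: a general lower bound and a necessary condition for the crosscut formula

If `G` does not split with parameters `(a, k)` then
`ex_r(n, G⁺) ≥ ((a + k / 2) (r-1)! / (r-1)^(r-1) - o(1)) (n choose r-1)`; hence the crosscut formula
can hold for `(r, G)` only if `(2 a + k) (r-1)! ≤ 2 (σ(G⁺) - 1) (r-1)^(r-1)`.
-/

set_option autoImplicit false

namespace Pool.Agent.Results.MP_5176ab_co.Obstruction

open EX Finset SimpleGraph Filter Topology

open scoped Classical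

theorem result {U : Type} [Fintype U] (r a k : ℕ) (hr : 3 ≤ r) (G : SimpleGraph U)
    (hG : ¬ Splits r a k G) :
    (∀ ε : ℝ, 0 < ε → ∀ᶠ n : ℕ in atTop,
      (((a : ℝ) + (k : ℝ) / 2) * (((r - 1).factorial : ℝ) / ((r - 1 : ℕ) : ℝ) ^ (r - 1)) - ε) *
        (n.choose (r - 1) : ℝ) ≤ exr r n (expansion r G)) ∧
    (2 ≤ crosscutNumber (expansion r G) → CrosscutFormula r G →
      (2 * a + k) * (r - 1).factorial ≤
        2 * (crosscutNumber (expansion r G) - 1) * (r - 1) ^ (r - 1)) := by
  exact ⟨fun ε hε => OB_lower' a k r (by omega) G hG ε hε, fun hσ hF =>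
    formula_bound r a k hr G hG hσ hF⟩

end Pool.Agent.Results.MP_5176ab_co.Obstruction
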