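import Pool.Agent.Helper89.EX.FN

/-!
# MP_5176ab_co: the crosscut formula up to the generalized Turán number `ex(n, K_r, G)`

Let `r ≥ 3` and let `G` be a graph with at least one edge such that `G` is `(r - 2)`-colourable,
or, more generally, such that some minimum crosscut of `G⁺` misses one colour class of some proper
colouring of `G` with `r - 1` colours. With `σ = σ(G⁺)`,
`max(ex(n, K_r, G), (σ - 1 - o(1)) (n choose r-1)) ≤ ex_r(n, G⁺) ≤
  ex(n, K_r, G) + (σ - 1 + o(1)) (n choose r-1)`.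
Hence (if `σ ≥ 2`) the crosscut formula holds for `(r, G)` if `ex(n, K_r, G) = o(n^(r-1))`, and it
fails if `ex(n, K_r, G) > (σ - 1 + δ) (n choose r-1)` for infinitely many `n`.
-/

set_option autoImplicit false

namespace Pool.Agent.Results.MP_5176ab_co.Sandwich

open EX Finset SimpleGraph Filter Topology

open scoped Classical

theorem result {U : Type} [Fintype U] (r : ℕ) (hr : 3 ≤ r) (G : SimpleGraph U) (hG : G ≠ ⊥)
    (hA : G.Colorable (r - 2) ∨ AvoidsClass r G) :
    (∀ ε : ℝ, 0 < ε → ∀ᶠ n : ℕ in atTop,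
      exK n r G ≤ exr r n (expansion r G) ∧
      ((crosscutNumber (expansion r G) : ℝ) - 1 - ε) * (n.choose (r - 1) : ℝ) ≤
        exr r n (expansion r G) ∧
      (exr r n (expansion r G) : ℝ) ≤ exK n r G +
        ((crosscutNumber (expansion r G) : ℝ) - 1 + ε) * (n.choose (r - 1) : ℝ)) ∧
    (2 ≤ crosscutNumber (expansion r G) →
      Tendsto (fun n : ℕ => (exK n r G : ℝ) / (n : ℝ) ^ (r - 1)) atTop (𝓝 0) →
      CrosscutFormula r G) ∧
    (2 ≤ crosscutNumber (expansion r G) → CrosscutFormula r G →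
      ∀ ε : ℝ, 0 < ε → ∀ᶠ n : ℕ in atTop, (exK n r G : ℝ) ≤
        ((crosscutNumber (expansion r G) : ℝ) - 1 + ε) * (n.choose (r - 1) : ℝ)) := by
  have hA' : AvoidsClass r G := hA.elim (avoids_of_colorable r hr G) id
  obtain ⟨h1, h2, h3⟩ := sandwich r hr G hG hA'
  refine ⟨fun ε hε => ?_, fun hσ hK => ?_, fun hσ hF ε hε => ?_⟩
  · filter_upwards [h3 ε hε] with n hn
    exact ⟨h2 n, hn.1, hn.2⟩
  · exact formula_of_tendsto r G hσ (tendsto_of_bounds _ _ _ _ (small_choose _ _ hK) h3)
  · filter_upwards [le_of_formula r G hσ hF ε hε] with n hn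
    refine le_trans ?_ hn
    exact_mod_cast h2 n

end Pool.Agent.Results.MP_5176ab_co.Sandwich
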