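import Pool.Agent.Helper7.KT.Proof

/-!
# MP_5176ab_co: the crosscut formula for bipartite graphs with a side of `r choose 2` vertices
-/

set_option autoImplicit false

namespace Pool.Agent.Results.MP_5176ab_co.ThresholdSide

open EX Finset SimpleGraph Filter Topology

open scoped Classical

theorem result :
    (∀ r : ℕ, 3 ≤ r → ∀ (U : Type) [Fintype U] (G : SimpleGraph U) (A : Finset U),
      (∀ u v, G.Adj u v → (u ∈ A ↔ v ∉ A)) → A.card ≤ r.choose 2 → G ≠ ⊥ →
      (4 ≤ r ∨ crosscutNumber (expansion r G) = 3) →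
      (∀ c : ℝ, Tendsto (fun n : ℕ => (exK n r G : ℝ) / (n.choose (r - 1) : ℝ)) atTop (𝓝 c) →
        Tendsto (fun n : ℕ => (exr r n (expansion r G) : ℝ) / (n.choose (r - 1) : ℝ)) atTop
          (𝓝 (max ((crosscutNumber (expansion r G) : ℝ) - 1) c))) ∧
      (2 ≤ crosscutNumber (expansion r G) →
        (CrosscutFormula r G ↔ ∀ ε : ℝ, 0 < ε → ∀ᶠ n : ℕ in atTop, (exK n r G : ℝ) ≤
          ((crosscutNumber (expansion r G) : ℝ) - 1 + ε) * (n.choose (r - 1) : ℝ)) ∧
        ((univ.filter fun u => u ∉ A).card ≤ r * (crosscutNumber (expansion r G) - 1) + 1 →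
          CrosscutFormula r G))) ∧
    ∀ r t : ℕ, 3 ≤ r → r.choose 2 ≤ t → t ≤ r * (r.choose 2 - 1) + 1 →
      crosscutNumber (expansion r (completeBipartiteGraph (Fin (r.choose 2)) (Fin t))) =
          r.choose 2 ∧
        CrosscutFormula r (completeBipartiteGraph (Fin (r.choose 2)) (Fin t)) :=
  ⟨fun r hr _ _ G A hA hAc hG hr3 => Pool.Agent.Helper7.KT.pmain r hr G A hA hAc hG hr3,
    fun r t hr ht ht' => Pool.Agent.Helper7.KT.pkst r t hr ht ht'⟩

end Pool.Agent.Results.MP_5176ab_co.ThresholdSide
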